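import Pool.Agent.Y213.CT.SecN

/-!
# Sections of finite level of fundamental groups over all extensions of bounded degree

`E : y² = x³ + a x + b` is an elliptic curve over a number field `K` (any rank, with or without
complex multiplication) whose Tate-Shafarevich group over `K` is killed by some `M₀ ≥ 1` (nothing is
assumed over larger fields), and `X` is a closed subset of `E ^ r × ℙ ^ n` over `K`, a family of
closed subsets `X_y ⊆ E ^ r` with parameter space `ℙ ^ n`. Suppose that for all `1 ≤ m ≤ M` and all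
complex points `S` of `E ^ r` there are at most `D` points `y` such that `S` is a sum of `m` points of
`X_y`. Then for `B ≥ 1` there is ONE level `N = O(B ^ ε)` such that for all points `y` in `ℙ ^ n (K)`
of height at most `B` with `O(B ^ ε)` exceptions, ALL extensions `F` of `K` of degree at most `M` and
all smooth curves `C` over `F` with a map to `X_y` the following holds. Let `L` be the function field of
`C`, `P` the point of `X_y` over `L` given by the map and `R` an extension of `L` in an algebraic closure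
`Ω` of `L` which contains an algebraic closure `A` of `F` and over which `P` is divisible by `N`. Then
the map from `Gal(R/L)` to the absolute Galois group of `F` has no section which is given over `F_w` by
a point (or a cusp) of `C` for all finite places `w` of `F`.

The smallest such `R`, generated by `A` and the coordinates of the `N`-th division points of `P`, is
unramified over `C`; its Galois group is the quotient of `π₁(C)` which is an extension of the absolute
Galois group of `F` by a subgroup of `(ℤ/N)^(2r)`, the one given by the covering `[N]` of `E ^ r`. So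
already this finite quotient of the geometric fundamental group shows that there are no sections of
`π₁(C)` which are locally geometric at all finite places.
-/

set_option autoImplicit false

namespace Pool.Agent.Results.MP_e66f84_ag.FiniteLevelSections

open MvPolynomial NumberField IsDedekindDomain Pool.Agent.TH954

open scoped LinearAlgebra.Projectivization

/-- the curve `y² = x³ + a x + b` -/
def curve {F : Type} [Field F] (a b : F) : WeierstrassCurve F := ⟨0, 0, 0, a, b⟩

/-- homogeneous coordinates of a point in the projective plane -/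
def coords {F : Type} [Field F] {W : WeierstrassCurve F} : W.toAffine.Point → Fin 3 → F
  | .zero => ![0, 1, 0]
  | .some x y _ => ![x, y, 1]

/-- `F` is homogeneous of degree `d i` in the coordinates `(i, 0), (i, 1), (i, 2)` of the `i`-th
point of the plane, and homogeneous of degree `m` in the last `n + 1` variables -/
def MultiHomog {O : Type} [CommRing O] {r n : ℕ}
    (F : MvPolynomial ((Fin r × Fin 3) ⊕ Fin (n + 1)) O) (d : Fin r → ℕ) (m : ℕ) : Prop :=
  ∀ e ∈ F.support, (∀ i, ∑ j, e (Sum.inl (i, j)) = d i) ∧ ∑ i, e (Sum.inr i) = m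

open scoped Classical in
/-- `S` is a sum of `m` complex points `P` of the member `X_y`, that is, with `G_e(P; y) = 0` for
all `e` -/
def IsSum {K : Type} [Field K] (σ : K →+* ℂ) (a b : 𝓞 K) {r n q : ℕ}
    (G : Fin q → MvPolynomial ((Fin r × Fin 3) ⊕ Fin (n + 1)) (𝓞 K)) (m : ℕ)
    (S : Fin r → (curve (σ a) (σ b)).toAffine.Point) (y : Fin (n + 1) → ℂ) : Prop :=
  ∃ P : Fin m → Fin r → (curve (σ a) (σ b)).toAffine.Point,
    (∀ j e, eval₂ (σ.comp (algebraMap (𝓞 K) K))
      (Sum.elim (fun il => coords (P j il.1) il.2) y) (G e) = 0) ∧ ∀ i, ∑ j, P j i = S i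

/-- the equations `G_e(V; y) = 0`, over the extension `F` of `K`, of the member `X_y`, for a
`K`-rational point `y` of `ℙ ^ n` -/
noncomputable def MemberOver {K : Type} [Field K] {r n q : ℕ}
    (G : Fin q → MvPolynomial ((Fin r × Fin 3) ⊕ Fin (n + 1)) (𝓞 K)) (F : Type) [Field F]
    [Algebra K F] (y : ℙ K (Fin (n + 1) → K)) : Set (MvPolynomial (Fin r × Fin 3) F) :=
  Set.range fun e => eval₂ (C.comp ((algebraMap K F).comp (algebraMap (𝓞 K) K)))
    (Sum.elim X (fun i => C (algebraMap K F (y.rep i)))) (G e)

open scoped Classical in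
/-- the points `P i` of the elliptic curve `W` over `L` are divisible by `N` over `R` -/
def DivisibleOver {F L R : Type} [Field F] [Field L] [Field R] [Algebra F L] [Algebra L R]
    [Algebra F R] [IsScalarTower F L R] (W : WeierstrassCurve F) (N : ℕ) {r : ℕ}
    (P : Fin r → (W.baseChange L).toAffine.Point) : Prop :=
  ∀ i, ∃ Q : (W.baseChange R).toAffine.Point,
    N • Q = pm W (IsScalarTower.toAlgHom F L R) (P i)

theorem coords_eq {F : Type} [Field F] {a b : F} (P : Pool.Agent.H901R3.MS.Pt a b) :
    coords P = Pool.Agent.H901R3.MS.rep P := by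
  rcases P with _ | ⟨x, y, h⟩ <;> rfl

theorem result (K : Type) [Field K] [NumberField K] (a b : 𝓞 K)
    (hE : 4 * a ^ 3 + 27 * b ^ 2 ≠ 0) (M₀ : ℕ) (hM1 : 1 ≤ M₀)
    (hM : ShaKilledBy (curve (a : K) (b : K)) M₀) (r n q : ℕ)
    (G : Fin q → MvPolynomial ((Fin r × Fin 3) ⊕ Fin (n + 1)) (𝓞 K))
    (d : Fin q → Fin r → ℕ) (deg : Fin q → ℕ) (hG : ∀ e, MultiHomog (G e) (d e) (deg e))
    (σ : K →+* ℂ) (M D : ℕ)
    (hX : ∀ m, 1 ≤ m → m ≤ M → ∀ S : Fin r → (curve (σ a) (σ b)).toAffine.Point,
      {y : ℙ ℂ (Fin (n + 1) → ℂ) | IsSum σ a b G m S y.rep}.encard ≤ D)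
    (ε : ℝ) (hε : 0 < ε) :
    ∃ C : ℝ, ∀ B : ℝ, 1 ≤ B → ∃ N : ℕ, 1 ≤ N ∧ (N : ℝ) ≤ C * B ^ ε ∧
      ∃ Z : Finset (ℙ K (Fin (n + 1) → K)), (Z.card : ℝ) ≤ C * B ^ ε ∧
      ∀ y : ℙ K (Fin (n + 1) → K), y.mulHeight ≤ B → y ∉ Z →
      ∀ (F : Type) [Field F] [NumberField F] [Algebra K F] (_ : Module.finrank K F ≤ M)
        (L Ω R A : Type) [Field L] [Field Ω] [Field R] [Field A] [Algebra F L] [Algebra L Ω]
        [Algebra F Ω] [Algebra L R] [Algebra F R] [Algebra F A] [IsScalarTower F L Ω]
        [IsScalarTower F L R] [IsAlgClosure L Ω] [IsAlgClosure F A] (_ : R →ₐ[L] Ω)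
        (P : Fin r → ((curve (algebraMap K F a) (algebraMap K F b)).baseChange L).toAffine.Point)
        (_ : OnX (MemberOver G F y) (fun i => crd (P i)))
        (_ : DivisibleOver (R := R) (curve (algebraMap K F a) (algebraMap K F b)) N P)
        (s : GalSection F L R A),
        ¬ ∀ w : HeightOneSpectrum (𝓞 F),
          ∃ p : Plc F R (AlgebraicClosure (w.adicCompletion F)), s.GivenBy (w.adicCompletion F) p := by
  obtain ⟨C, hC⟩ := Pool.Agent.Y213.CT.partBS K r (n + 1) q (Finset.range M) a b hE G d deg
    (fun e x hx => (hG e x hx).1) (fun e x hx => (hG e x hx).2) D σ (by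
      intro m hm S
      rw [Finset.mem_range] at hm
      refine (Set.encard_le_encard ?_).trans (hX (m + 1) (by omega) (by omega) S)
      intro y hy
      obtain ⟨P, hP1, hP2⟩ := hy
      refine ⟨P, fun j e => ?_, hP2⟩
      have h1 := hP1 j e
      unfold Pool.Agent.Y213.EC.vl at h1
      rw [← h1]
      congr 1
      funext ij
      rcases ij with ij | i
      · exact congrFun (coords_eq (P j ij.1)) ij.2
      · rfl) ε hε
  have hM0 : (1 : ℝ) ≤ M₀ := by exact_mod_cast hM1
  refine ⟨M₀ * 2 * C, fun B hB => ?_⟩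
  obtain ⟨L, hL1, hL, hfin, hcard⟩ := hC B hB
  have hCB : 0 ≤ C * B ^ ε := le_trans (Nat.cast_nonneg _) hL
  have hN : 1 ≤ M₀ * 2 * L := by
    have := Nat.mul_pos (Nat.mul_pos hM1 two_pos) hL1
    omega
  refine ⟨M₀ * 2 * L, hN, ?_, hfin.toFinset, ?_, ?_⟩
  · push_cast
    rw [mul_assoc ((M₀ : ℝ) * 2)]
    exact mul_le_mul_of_nonneg_left hL (by positivity)
  · rw [← Set.ncard_eq_toFinset_card _ hfin, mul_assoc ((M₀ : ℝ) * 2)]
    refine hcard.trans ?_
    nlinarith
  · intro y hyB hyZ F _ _ _ hdeg L' Ω R A _ _ _ _ _ _ _ _ _ _ _ _ _ _ e P hPS hdiv s hloc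
    apply hyZ
    rw [Set.Finite.mem_toFinset]
    haveI : Module.Finite K F := Module.Finite.of_restrictScalars_finite ℚ K F
    have hpos : 0 < Module.finrank K F := Module.finrank_pos
    choose p hp using hloc
    exact ⟨⟨Module.finrank K F - 1, Finset.mem_range.2 (by omega),
      Pool.Agent.Y213.CT.hs_of_section Pool.Agent.Y213.CT.tEmb Pool.Agent.Y213.CT.tGal
        Pool.Agent.Y213.CT.tUni Pool.Agent.Y213.CT.tPlc a b hE G d deg
        (fun e x hx => (hG e x hx).1) (fun e x hx => (hG e x hx).2) hM
        (Module.finrank K F - 1) y.rep L hN F (by omega) e P hPS hdiv s p hp⟩, hyB⟩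

end Pool.Agent.Results.MP_e66f84_ag.FiniteLevelSections
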