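import Pool.Agent.Y141.PS.FG

/-!
# Superelliptic twists over every finitely generated field: also the pro-`ℓ` fundamental group

Let `k` be any field finitely generated over `ℚ`, that is, the fraction field of a domain `R` of
characteristic zero that is finitely generated as a ring.  Let `f ∈ k[x]` be a separable polynomial
of degree `m ≥ 3` such that some element of `Gal(k̄/k)` fixes no root of `f`; this is so for all
irreducible `f`.  Then for all `a ∈ R` outside a set of density zero, for all `n ≥ 1` which are not
coprime to `m`, the curve `a yⁿ = f(x)` has no point over `k`, and its fundamental group has no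
section, also when any set of closed points of the curve is removed.  So these curves, and all
smooth curves over `k` that dominate one of them, satisfy the section conjecture.  (If `n` is
coprime to `m`, then there is a rational point at infinity.)  The set of the exceptional `a` has
density zero in a strong sense: for every `ε > 0` there is an ideal `I` of `R` of finite index such
that the exceptional `a` lie in at most `ε #(R/I)` residue classes modulo `I`.

Moreover, let `ℓ` be a prime number that divides `m`, `C` the curve `a y^ℓ = f(x)` over `k`, with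
function field `F`, and let `M` be the maximal pro-`ℓ` extension of `k̄ F` that is unramified over
`C`, so that `Gal(M/F)` is the geometrically pro-`ℓ` fundamental group of `C`.  Already
`Gal(M/F) → G_k` has no section, for the same `a`.

For even degrees `m` and even `n` the first part is the theorem of
`MP_e66f84_ag.FunctionFieldTwists`; odd `n`, odd `m`, and the second part are new.  For number
fields `k` this is the theorem of `MP_2f3286_ag.SuperellipticTwists`; the fields `k` of positive
transcendence degree are new.  For them there are no primes of `k` with finite residue fields to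
begin with.

The fundamental group is described through valuations.  Let `U` be a smooth geometrically connected
curve over `k` with function field `F`, let `Ω` be an algebraic closure of `F`, and let `F_U` be the
maximal extension of `F` inside `Ω` which is unramified over the closed points of `U`, that is, over
their local rings, which are valuation rings of `F`.  Then `π₁(U) = Gal(F_U/F)`, and the map
`π₁(U) → G_k` is the restriction of automorphisms to the algebraic closure of `k` in `Ω`.

Proof.  By Hilbert's irreducibility theorem and Newton's lemma there are many embeddings of `k` in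
completions `L_v` of a number field `L` such that `f` is separable modulo `v`, of the same degree and
without a root modulo `v`, and for almost every `a` the valuation of `a` at one of them is 1
(as in `FunctionFieldTwists`).  Such an embedding gives a discrete valuation of `k` with finite
residue field, and the local theorem for the geometrically pro-`ℓ` fundamental group (the one of
`MP_2f3286_ag.SuperellipticTwists`, which holds for all discrete valuation rings with finite residue
field whose fraction field has characteristic zero) shows that there is no section.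
-/

open Polynomial

namespace Pool.Agent.Results.MP_e66f84_ag.SuperellipticTwists

section definitions

variable (ℓ : ℕ) (k F Ω : Type) [Field k] [Field F] [Field Ω] [Algebra k F] [Algebra F Ω]
  [Algebra k Ω]

/-- The inertia group of the valuation ring `W` of `Ω`, as a subgroup of `Gal(Ω/F)`: the
automorphisms of `Ω` over `F` that map `W` onto itself and act as the identity on its residue
field. -/
noncomputable def inertia (W : ValuationSubring Ω) : Subgroup (Ω ≃ₐ[F] Ω) :=
  (W.inertiaSubgroup F).map (W.decompositionSubgroup F).subtype

/-- `F_U`, for a set `U` of valuation rings of `F`: the elements of `Ω` fixed by the inertia groups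
of all valuation rings `W` of `Ω` with `W ∩ F ∈ U`.  If `Ω` is an algebraic closure of a field `F`
of characteristic zero, this is the maximal extension of `F` in `Ω` unramified over `U`. -/
noncomputable def unramified (U : Set (ValuationSubring F)) : IntermediateField F Ω :=
  ⨅ W : {W : ValuationSubring Ω // W.comap (algebraMap F Ω) ∈ U},
    IntermediateField.fixedField (inertia F Ω W.1)

/-- `k̄ F`, the compositum of `F` and of the algebraic closure of `k` in `Ω`. -/
noncomputable def geomField : IntermediateField F Ω :=
  IntermediateField.adjoin F (algebraicClosure k Ω : Set Ω)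

/-- The algebraic extension `L` of `K` in `Ω` is unramified at all valuation rings of `Ω` that
contain `k`: every nonzero element of `L` has the same valuation as an element of `K`.  (If `K` is
a function field of one variable over the algebraic closure of `k` and `k` has characteristic zero,
then this says that `L/K` is unramified over all points of the smooth projective curve.) -/
def Unramified {k K Ω : Type} [Field k] [Field K] [Field Ω] [Algebra k Ω] [Algebra K Ω]
    (L : IntermediateField K Ω) : Prop :=
  ∀ W : ValuationSubring Ω, (∀ c : k, algebraMap k Ω c ∈ W) → ∀ z ∈ L, z ≠ 0 →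
    ∃ t : K, t ≠ 0 ∧ z / algebraMap K Ω t ∈ W ∧ (z / algebraMap K Ω t)⁻¹ ∈ W

/-- `L/K` is a finite Galois extension whose degree is a power of `ℓ`. -/
def FiniteProEll (ℓ : ℕ) {K Ω : Type} [Field K] [Field Ω] [Algebra K Ω]
    (L : IntermediateField K Ω) : Prop :=
  FiniteDimensional K L ∧ IsGalois K L ∧ ∃ m : ℕ, Module.finrank K L = ℓ ^ m

/-- The maximal unramified pro-`ℓ` extension of `K` in `Ω`: the compositum of the finite Galois
extensions of `K` whose degree is a power of `ℓ` and which are unramified. -/
noncomputable def maxProEll (ℓ : ℕ) (k K Ω : Type) [Field k] [Field K] [Field Ω] [Algebra k Ω]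
    [Algebra K Ω] : IntermediateField K Ω :=
  ⨆ L : {L : IntermediateField K Ω // FiniteProEll ℓ L ∧ Unramified (k := k) L}, L.1

/-- `M`, the maximal unramified pro-`ℓ` extension of `k̄ F` in `Ω`, as an extension of `F`. -/
noncomputable def proEllField : IntermediateField F Ω :=
  (maxProEll ℓ k (geomField k F Ω) Ω).restrictScalars F

/-- The map `τ : M → M` acts as `σ : K → K` on the elements that the fields `K` and `M` have in
common when they are regarded as subfields of `Ω` through `i` and `j`. -/
def ActsAs {K M Ω : Type} [Field K] [Field M] [Field Ω] (i : K →+* Ω) (j : M →+* Ω) (σ : K → K)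
    (τ : M → M) : Prop :=
  ∀ c z, j z = i c → j (τ z) = i (σ c)

/-- Let `k ⊆ K ⊆ Ω` and `F ⊆ N ⊆ Ω` be fields.  A splitting of `Gal(N/F) → Gal(K/k)`: a continuous
homomorphism `s` from `Gal(K/k)` to `Gal(N/F)` such that `s(σ)` acts as `σ` on the elements of
`K ∩ N`. -/
structure Splitting (K N : Type) [Field K] [Field N] [Algebra k K] [Algebra F N] [Algebra K Ω]
    [Algebra N Ω] where
  /-- the homomorphism `Gal(K/k) → Gal(N/F)` -/
  toHom : (K ≃ₐ[k] K) →* (N ≃ₐ[F] N)
  cont : Continuous toHom
  compat : ∀ σ : K ≃ₐ[k] K, ActsAs (algebraMap K Ω) (algebraMap N Ω) σ (toHom σ)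

/-- There are no sections of `Gal(N/F) → G_k`, where `G_k = Gal(k̄/k)` and `k̄` is the algebraic
closure of `k` in `Ω`.  For `N = F_U` these are the sections of `π₁(U) → G_k`. -/
def NoSplitting (N : IntermediateField F Ω) : Prop :=
  IsEmpty (Splitting k F Ω (algebraicClosure k Ω) N)

end definitions

section curves

variable {k : Type} [Field k]

/-- The smooth projective curve with the affine equation `a yⁿ = f(x)` has no point over `k`:
neither in the affine part nor at infinity. -/
def NoPoint (n : ℕ) (a : k) (f : k[X]) : Prop :=
  (¬ ∃ x y : k, a * y ^ n = f.eval x) ∧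
    ¬ ∃ r : k, a * r ^ Nat.gcd n f.natDegree = f.leadingCoeff

/-- Let `F` be any field over `k` that contains a point `(x, y)` of the curve `a yⁿ = f(x)`, for
instance the function field of the curve, and let `Ω` be an algebraic closure of `F`.  Then for
every set `U` of valuation rings of `F` over `k` there is no section of `π₁(U) → G_k`.  If `F` is the
function field of the curve, such `U` are given by the smooth projective curve and by all its open
subcurves. -/
def NoSection (n : ℕ) (a : k) (f : k[X]) : Prop :=
  ∀ (F Ω : Type) [Field F] [Field Ω] [Algebra k F] [Algebra F Ω] [Algebra k Ω]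
    [IsScalarTower k F Ω] [IsAlgClosure F Ω] (x y : F) (U : Set (ValuationSubring F)),
    algebraMap k F a * y ^ n = aeval x f → (∀ O ∈ U, ∀ c : k, algebraMap k F c ∈ O) →
      NoSplitting k F Ω (unramified F Ω U)

/-- Let `F = k(x, y)` be the function field of the curve `a y^ℓ = f(x)`, let `Ω` be an algebraic
closure of `F`, and let `M` be the maximal unramified pro-`ℓ` extension of `k̄ F`.  For all
extensions `N ⊇ M` of `F` in `Ω`, in particular for `N = M`, there is no section of
`Gal(N/F) → G_k`. -/
def NoProEllSection (ℓ : ℕ) (a : k) (f : k[X]) : Prop :=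
  ∀ (F Ω : Type) [Field F] [Field Ω] [Algebra k F] [Algebra F Ω] [Algebra k Ω]
    [IsScalarTower k F Ω] [IsAlgClosure F Ω] (x y : F), Transcendental k x →
    algebraMap k F a * y ^ ℓ = aeval x f →
    IntermediateField.adjoin k {x, y} = (⊤ : IntermediateField k F) →
    ∀ N : IntermediateField F Ω, proEllField ℓ k F Ω ≤ N → NoSplitting k F Ω N

/-- Some element of the Galois group of `k` fixes no root of `f`. -/
def HasDerangement (f : k[X]) : Prop :=
  ∃ σ : AlgebraicClosure k ≃ₐ[k] AlgebraicClosure k,
    ∀ θ : AlgebraicClosure k, aeval θ f = 0 → σ θ ≠ θ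

end curves

/-- The elements `a` of `R` which do not have the following property: for all `n ≥ 1` which are not
coprime to the degree of `f` the curve `a yⁿ = f(x)` over `k` has neither points nor sections, and
for all prime numbers `ℓ` which divide the degree of `f` the geometrically pro-`ℓ` fundamental group
of the curve `a y^ℓ = f(x)` has no section. -/
def Exceptional (R : Type) [CommRing R] {k : Type} [Field k] [Algebra R k] (f : k[X]) : Set R :=
  {a | ¬ ((∀ n : ℕ, 0 < n → ¬ Nat.Coprime n f.natDegree →
      NoPoint n (algebraMap R k a) f ∧ NoSection n (algebraMap R k a) f) ∧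
    ∀ ℓ : ℕ, ℓ.Prime → ℓ ∣ f.natDegree → NoProEllSection ℓ (algebraMap R k a) f)}

/-- Density zero: for every `ε > 0` there is an ideal `I` of `R` of finite index such that `E` lies
in at most `ε #(R/I)` residue classes modulo `I`. -/
def DensityZero {R : Type} [CommRing R] (E : Set R) : Prop :=
  ∀ ε : ℝ, 0 < ε → ∃ I : Ideal R, Finite (R ⧸ I) ∧
    (Set.ncard ((Ideal.Quotient.mk I) '' E) : ℝ) ≤ ε * Nat.card (R ⧸ I)

lemma iSup_congr_prop {α : Type} [CompleteLattice α] {P Q : α → Prop} (h : ∀ L, P L ↔ Q L) :
    (⨆ L : {L // P L}, L.1) = ⨆ L : {L // Q L}, L.1 := by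
  have h1 : P = Q := funext fun L => propext (h L)
  subst h1
  rfl

lemma proEll_eq (ℓ : ℕ) (k F Ω : Type) [Field k] [Field F] [Field Ω] [Algebra k F] [Algebra F Ω]
    [Algebra k Ω] : proEllField ℓ k F Ω = Pool.Agent.Y157.PS.geomPro ℓ k F Ω := by
  unfold proEllField Pool.Agent.Y157.PS.geomPro maxProEll Pool.Agent.Y157.PS.maxPro
  congr 1
  refine iSup_congr_prop fun L => ?_
  constructor
  · rintro ⟨⟨h1, h2, h3⟩, h4⟩
    refine ⟨⟨h1, h2, h3⟩, fun W hW z hz hz0 => ?_⟩
    obtain ⟨t, ht, h5, h6⟩ := h4 W hW z hz hz0
    exact ⟨t, ht, div_ne_zero hz0 ((_root_.map_ne_zero _).2 ht), h5, h6⟩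
  · rintro ⟨⟨h1, h2, h3⟩, h4⟩
    refine ⟨⟨h1, h2, h3⟩, fun W hW z hz hz0 => ?_⟩
    obtain ⟨t, ht, -, h5, h6⟩ := h4 W hW z hz hz0
    exact ⟨t, ht, h5, h6⟩

lemma of_fine {k : Type} [Field k] (l : ℕ) (a : k) (f : k[X])
    (h : Pool.Agent.Y157.PS.FineP l a f) (n : ℕ) (hn : l ∣ n) (hd : l ∣ f.natDegree) :
    NoPoint n a f ∧ NoSection n a f := by
  obtain ⟨-, h1, h2, h3⟩ := h
  obtain ⟨n', rfl⟩ := hn
  refine ⟨⟨?_, ?_⟩, ?_⟩
  · rintro ⟨x, y, hxy⟩
    apply h2 x (y ^ n')
    rw [← hxy, ← pow_mul, mul_comm n' l]
  · rintro ⟨r, hr⟩
    obtain ⟨e, he⟩ := Nat.dvd_gcd (Dvd.intro n' rfl : l ∣ l * n') hd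
    apply h3 (r ^ e)
    rw [← hr, ← pow_mul, mul_comm e l, he]
  · intro F Ω _ _ _ _ _ _ _ x y U hxy hU
    have hcl : IsAlgClosed Ω := IsAlgClosure.isAlgClosed F
    have halg : Algebra.IsAlgebraic F Ω := IsAlgClosure.isAlgebraic
    have h4 := h1 F Ω U hU x (y ^ n') (by rw [← hxy, ← pow_mul, mul_comm n' l])
    exact ⟨fun s => h4.false ⟨s.toHom, s.cont, s.compat⟩⟩

/-- Let `R` be a domain of characteristic zero that is finitely generated as a ring, with fraction
field `k`; so `k` is any field finitely generated over `ℚ`.  Let `f` be a separable polynomial over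
`k` of degree at least 3 that is irreducible or, more generally, has a Galois group with an element
that fixes no root.  Then for all `a ∈ R` outside a set of density zero, for all `n ≥ 1` which are
not coprime to the degree of `f`, the smooth projective curve with the affine equation `a yⁿ = f(x)`
has no point over `k`, and the fundamental groups of its open subcurves and of all smooth curves over
`k` that dominate it have no sections; and for all prime numbers `ℓ` that divide the degree of `f`
the geometrically pro-`ℓ` fundamental group of the curve `a y^ℓ = f(x)` has no section. -/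
theorem result (R : Type) [CommRing R] [IsDomain R] [CharZero R] [Algebra.FiniteType ℤ R]
    (k : Type) [Field k] [Algebra R k] [IsFractionRing R k] (f : k[X]) (hf : f.Separable)
    (h3 : 3 ≤ f.natDegree) (h : Irreducible f ∨ HasDerangement f) :
    DensityZero (Exceptional R f) := by
  have hcz : CharZero k := charZero_of_injective_algebraMap (IsFractionRing.injective R k)
  have hσ : HasDerangement f := by
    rcases h with h | h
    · exact Pool.Agent.W52.SecC.D3.partD3 k f h (by omega)
    · exact h
  intro ε hε
  obtain ⟨I, hI, hIE⟩ := Pool.Agent.Y141.PS.density_fgP (R := R) f hf h3 hσ ε hε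
  refine ⟨I, hI, le_trans ?_ hIE⟩
  have hsub : (Exceptional R f : Set R) ⊆
      {a : R | ¬ ∀ ℓ : ℕ, ℓ.Prime → ℓ ∣ f.natDegree →
        Pool.Agent.Y157.PS.FineP ℓ (algebraMap R k a) f} := by
    intro a ha hfine
    apply ha
    refine ⟨fun n hn hnd => ?_, fun ℓ hℓ hℓd => ?_⟩
    · obtain ⟨l, hl, hln, hld⟩ := Nat.Prime.not_coprime_iff_dvd.1 hnd
      exact of_fine l _ f (hfine l hl hld) n hln hld
    · intro F Ω _ _ _ _ _ _ _ x y hx hxy hF N hN
      have hcl : IsAlgClosed Ω := IsAlgClosure.isAlgClosed F
      have halg : Algebra.IsAlgebraic F Ω := IsAlgClosure.isAlgebraic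
      rw [proEll_eq] at hN
      exact ⟨fun s => (hfine ℓ hℓ hℓd).1 F Ω x y hx hxy hF N hN s.toHom s.cont s.compat⟩
  exact_mod_cast Set.ncard_le_ncard (Set.image_mono hsub) (Set.toFinite _)

end Pool.Agent.Results.MP_e66f84_ag.SuperellipticTwists
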